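import Pool.Agent.Helper947_Four.Check
import Pool.Agent.Helper947_Fin.Assemble

set_option autoImplicit false

/-!
The bilinear bound for points of mixed sign.
-/

namespace Pool.Agent.Helper947_Four

open Pool.Agent.Helper947_Fin (Ax smul_parts)
open Pool.Agent.Helper947_Any (Good mulL mulR)

/-- the coefficient of `-g a` in a point with shifted coordinate `c` -/
def ng (r a c : ℕ) : ℕ := bif Nat.blt a r then 1 - c else c - 1

/-- the coefficient of `g a` in a point with shifted coordinate `c` -/
def ps (r a c : ℕ) : ℕ := bif Nat.blt a r then c - 1 else 1 - c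

/-- the bounds for `E (-g a) (g b)` -/
def dt (t a b : ℕ) : ℕ := bif Nat.beq a t || Nat.beq b t then 2 else 1

def row (r t a : ℕ) (y : Pt) : ℕ :=
  ps r 0 y.a * dt t a 0 + ps r 1 y.b * dt t a 1 + ps r 2 y.c * dt t a 2 + ps r 3 y.d * dt t a 3

/-- the bilinear bound -/
def bil (r t : ℕ) (x y : Pt) : ℕ :=
  ng r 0 x.a * row r t 0 y + ng r 1 x.b * row r t 1 y + ng r 2 x.c * row r t 2 y +
    ng r 3 x.d * row r t 3 y

section sound

variable {L : Type*} [AddCommGroup L] {E : L → L → ℕ} (hE : Ax E) (g : ℕ → L) (r t : ℕ)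
  (hP : ∀ a y, E (g a) y = 0) (hN : ∀ x a, E x (-g a) = 0)
  (hD : ∀ a b, a < 4 → b < 4 → E (-g a) (g b) ≤ dt t a b)

/-- the generators of the orthant: the first `r` of the `g a` and the opposites of the others -/
def hgen (a : ℕ) : L := if a < r then g a else -g a

theorem part (a c : ℕ) : ((c : ℤ) - 1) • hgen g r a = ps r a c • g a + ng r a c • (-g a) := by
  unfold hgen ps ng
  by_cases h : a < r
  · rw [if_pos h, Nat.blt_eq.mpr h, cond_true, cond_true, smul_parts]
  · have h' : Nat.blt a r = false := by
      rw [← Bool.not_eq_true, Nat.blt_eq]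
      exact h
    rw [if_neg h, h', cond_false, cond_false, smul_parts, neg_neg, add_comm]

include hE hP in
theorem part_left (a c : ℕ) (y : L) :
    E (ps r a c • g a + ng r a c • (-g a)) y ≤ ng r a c * E (-g a) y := by
  refine (hE.subL _ _ _).trans ?_
  have h1 := mulL hE (ps r a c) (g a) y
  have h2 := mulL hE (ng r a c) (-g a) y
  rw [hP, mul_zero] at h1
  omega

include hE hN in
theorem part_right (a c : ℕ) (x : L) :
    E x (ps r a c • g a + ng r a c • (-g a)) ≤ ps r a c * E x (g a) := by
  refine (hE.subR _ _ _).trans ?_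
  have h1 := mulR hE (ps r a c) x (g a)
  have h2 := mulR hE (ng r a c) x (-g a)
  rw [hN, mul_zero] at h2
  omega

include hE hN hD in
theorem row_le (a : ℕ) (ha : a < 4) (y : Pt) : E (-g a) (y.sem (hgen g r)) ≤ row r t a y := by
  unfold Pt.sem row
  rw [part, part, part, part]
  have e : ∀ b c, b < 4 → E (-g a) (ps r b c • g b + ng r b c • (-g b)) ≤ ps r b c * dt t a b :=
    fun b c hb => (part_right hE g r hN b c _).trans (Nat.mul_le_mul_left _ (hD a b ha hb))
  refine (hE.subR _ _ _).trans (add_le_add ((hE.subR _ _ _).trans (add_le_add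
    ((hE.subR _ _ _).trans (add_le_add (e 0 _ (by omega)) (e 1 _ (by omega))))
      (e 2 _ (by omega)))) (e 3 _ (by omega)))

include hE hP hN hD in
theorem le_bil (x y : Pt) : E (x.sem (hgen g r)) (y.sem (hgen g r)) ≤ bil r t x y := by
  have e : ∀ a c, a < 4 → E (ps r a c • g a + ng r a c • (-g a)) (y.sem (hgen g r)) ≤
      ng r a c * row r t a y := fun a c ha =>
    (part_left hE g r hP a c _).trans (Nat.mul_le_mul_left _ (row_le hE g r t hN hD a ha y))
  conv_lhs => unfold Pt.sem
  rw [part, part, part, part]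
  refine (hE.subL _ _ _).trans (add_le_add ((hE.subL _ _ _).trans (add_le_add
    ((hE.subL _ _ _).trans (add_le_add (e 0 _ (by omega)) (e 1 _ (by omega))))
      (e 2 _ (by omega)))) (e 3 _ (by omega)))

include hE hP hN hD in
theorem good_of_check (l : List Step) (tr : Tree)
    (hc : checkAll (fun x y => some (bil r t x y)) l tr = true) :
    Good E (fun i : Fin 4 => hgen g r i) := by
  refine checkAll_sound (hgen g r) hE ?_ l tr hc
  intro x y n hn
  cases hn
  exact le_bil hE g r t hP hN hD x y

end sound

end Pool.Agent.Helper947_Four
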