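import Pool.Agent.Helper947_Any.Check

set_option autoImplicit false

/-!
Certificates in rank four, with points that may have a coordinate `-1`; coordinates are shifted by
one.
-/

namespace Pool.Agent.Helper947_Four

open Pool.Agent.Helper947_Fin (Ax)
open Pool.Agent.Helper947_Any (Good mulL mulR)

/-- points, in coordinates shifted by one -/
structure Pt where
  a : ℕ
  b : ℕ
  c : ℕ
  d : ℕ

def Pt.beq (p q : Pt) : Bool :=
  Nat.beq p.a q.a && Nat.beq p.b q.b && Nat.beq p.c q.c && Nat.beq p.d q.d

theorem Pt.eq_of_beq {p q : Pt} (h : p.beq q = true) : p = q := by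
  cases p
  cases q
  simp only [Pt.beq, Bool.and_eq_true, Nat.beq_eq] at h
  obtain ⟨⟨⟨h1, h2⟩, h3⟩, h4⟩ := h
  subst h1 h2 h3 h4
  rfl

def Pt.add (p q : Pt) : Option Pt :=
  bif Nat.ble 1 (p.a + q.a) && Nat.ble 1 (p.b + q.b) && Nat.ble 1 (p.c + q.c) &&
      Nat.ble 1 (p.d + q.d) then
    some ⟨p.a + q.a - 1, p.b + q.b - 1, p.c + q.c - 1, p.d + q.d - 1⟩ else none

/-- `p` is `m` times `q` -/
def Pt.isMul (m : ℕ) (q p : Pt) : Bool :=
  Nat.beq (p.a + m) (m * q.a + 1) && Nat.beq (p.b + m) (m * q.b + 1) &&
    Nat.beq (p.c + m) (m * q.c + 1) && Nat.beq (p.d + m) (m * q.d + 1)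

structure Fact where
  x : Pt
  y : Pt
  n : ℕ

inductive Step
  | ini (x y : Pt)
  | dia (x y w : Pt) (m n : ℕ)
  | sl (i j : ℕ)
  | sr (i j : ℕ)
  | dl (i : ℕ)
  | dr (i : ℕ)
  | hl (i m : ℕ) (x : Pt)
  | hr (i m : ℕ) (x : Pt)

inductive FT
  | nil
  | node (f : Fact) (l r : FT)

def FT.get : FT → ℕ → Option Fact
  | .nil, _ => none
  | .node f l r, n => bif Nat.beq n 0 then some f else
      bif Nat.beq ((n - 1) % 2) 0 then l.get ((n - 1) / 2) else r.get ((n - 1) / 2)

def FT.put : FT → ℕ → Fact → FT
  | .nil, _, f => .node f .nil .nil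
  | .node g l r, n, f =>
      bif Nat.beq ((n - 1) % 2) 0 then .node g (l.put ((n - 1) / 2) f) r
      else .node g l (r.put ((n - 1) / 2) f)

def FT.All (Q : Fact → Prop) : FT → Prop
  | .nil => True
  | .node f l r => Q f ∧ l.All Q ∧ r.All Q

theorem FT.All.get {Q : Fact → Prop} : ∀ {t : FT} {n : ℕ} {f : Fact}, t.All Q →
    t.get n = some f → Q f
  | .nil, n, f, _, h => by simp [FT.get] at h
  | .node g l r, n, f, hQ, h => by
    obtain ⟨h0, h1, h2⟩ := hQ
    unfold FT.get at h
    cases hc : Nat.beq n 0 with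
    | true =>
      rw [hc, cond_true] at h
      cases h
      exact h0
    | false =>
      rw [hc, cond_false] at h
      cases hd : Nat.beq ((n - 1) % 2) 0 with
      | true =>
        rw [hd, cond_true] at h
        exact FT.All.get h1 h
      | false =>
        rw [hd, cond_false] at h
        exact FT.All.get h2 h

theorem FT.All.put {Q : Fact → Prop} : ∀ {t : FT} (n : ℕ) {f : Fact}, t.All Q → Q f →
    (t.put n f).All Q
  | .nil, n, f, _, hf => ⟨hf, trivial, trivial⟩
  | .node g l r, n, f, hQ, hf => by
    obtain ⟨h0, h1, h2⟩ := hQ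
    unfold FT.put
    cases hd : Nat.beq ((n - 1) % 2) 0 with
    | true =>
      rw [cond_true]
      exact ⟨h0, FT.All.put _ h1 hf, h2⟩
    | false =>
      rw [cond_false]
      exact ⟨h0, h1, FT.All.put _ h2 hf⟩

section eval

variable (ini : Pt → Pt → Option ℕ)

/-- the new fact derived by a step -/
def Step.eval (t : FT) : Step → Option Fact
  | .ini x y => (ini x y).map fun n => ⟨x, y, n⟩
  | .dia x y w m n => bif w.isMul m x && w.isMul n y && Nat.ble 1 m && Nat.ble 1 n then
      some ⟨x, y, 0⟩ else none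
  | .sl i j => (t.get i).bind fun f => (t.get j).bind fun g =>
      bif f.y.beq g.y then (f.x.add g.x).map fun z => ⟨z, f.y, f.n + g.n⟩ else none
  | .sr i j => (t.get i).bind fun f => (t.get j).bind fun g =>
      bif f.x.beq g.x then (f.y.add g.y).map fun z => ⟨f.x, z, f.n + g.n⟩ else none
  | .dl i => (t.get i).bind fun f => (f.x.add f.y).map fun z => ⟨z, f.y, f.n - 1⟩
  | .dr i => (t.get i).bind fun f => (f.x.add f.y).map fun z => ⟨f.x, z, f.n - 1⟩
  | .hl i m x => (t.get i).bind fun f =>
      bif Pt.isMul m x f.x && Nat.ble 1 m then some ⟨x, f.y, f.n / m⟩ else none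
  | .hr i m x => (t.get i).bind fun f =>
      bif Pt.isMul m x f.y && Nat.ble 1 m then some ⟨f.x, x, f.n / m⟩ else none

def run : List Step → FT → ℕ → Option FT
  | [], t, _ => some t
  | s :: l, t, n => (s.eval ini t).bind fun f => run l (t.put n f) (n + 1)

end eval

/-- the origin -/
def zero : Pt := ⟨1, 1, 1, 1⟩

inductive Tree
  | leaf (σ : List ℕ) (k : List ℕ)
  | split (i j : ℕ) (t₁ t₂ : Tree)

/-- the fact number `i` says `E x y = 0` -/
def zeroFact (t : FT) (i : ℕ) (x y : Pt) : Bool :=
  match t.get i with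
  | none => false
  | some f => f.x.beq x && f.y.beq y && Nat.beq f.n 0

/-- all pairs `(a, b)`, `b` running from `j` on, in one row, apart from `a = b` and `b = s` -/
def rowCheck (t : FT) (a s : ℕ) (x : Pt) : ℕ → List Pt → List ℕ → Option (List ℕ)
  | _, [], k => some k
  | j, y :: ys, k =>
    bif Nat.beq a j || Nat.beq s j then rowCheck t a s x (j + 1) ys k
    else match k with
      | [] => none
      | i :: k' => bif zeroFact t i x y then rowCheck t a s x (j + 1) ys k' else none

def leafCheck (t : FT) (all : List Pt) : ℕ → List Pt → List ℕ → List ℕ → Bool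
  | _, [], _, _ => true
  | _, _ :: _, [], _ => false
  | a, x :: xs, s :: σ, k =>
    match rowCheck t a s x 0 all k with
    | none => false
    | some k' => leafCheck t all (a + 1) xs σ k'

/-- `σ` is an involution of `{0, …, n - 1}` -/
def invol (n : ℕ) (σ : List ℕ) : ℕ → Bool
  | 0 => true
  | a + 1 => Nat.blt (σ.getD a 0) n && Nat.beq (σ.getD (σ.getD a 0) 0) a && invol n σ a

def Tree.check (t : FT) (n : ℕ) : Tree → List Pt → Bool
  | .leaf σ k, v => invol n σ n && leafCheck t v 0 v σ k
  | .split i j t₁ t₂, v =>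
      Nat.blt i n && Nat.blt j n && !Nat.beq i j &&
      match Pt.add (v.getD i zero) (v.getD j zero) with
      | none => false
      | some s => t₁.check t n (v.set i s) && t₂.check t n (v.set j s)

def checkAll (ini : Pt → Pt → Option ℕ) (l : List Step) (tr : Tree) : Bool :=
  match run ini l .nil 0 with
  | none => false
  | some t => tr.check t 4 [⟨2, 1, 1, 1⟩, ⟨1, 2, 1, 1⟩, ⟨1, 1, 2, 1⟩, ⟨1, 1, 1, 2⟩]

section sound

variable {L : Type*} [AddCommGroup L] (h : ℕ → L)

def Pt.sem (p : Pt) : L :=
  ((p.a : ℤ) - 1) • h 0 + ((p.b : ℤ) - 1) • h 1 + ((p.c : ℤ) - 1) • h 2 + ((p.d : ℤ) - 1) • h 3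

theorem Pt.sem_add {p q r : Pt} (hr : p.add q = some r) :
    r.sem h = p.sem h + q.sem h := by
  unfold Pt.add at hr
  cases hc : (Nat.ble 1 (p.a + q.a) && Nat.ble 1 (p.b + q.b) && Nat.ble 1 (p.c + q.c) &&
      Nat.ble 1 (p.d + q.d)) with
  | false => rw [hc, cond_false] at hr; cases hr
  | true =>
    rw [hc, cond_true] at hr
    cases hr
    simp only [Bool.and_eq_true, Nat.ble_eq] at hc
    obtain ⟨⟨⟨h1, h2⟩, h3⟩, h4⟩ := hc
    unfold Pt.sem
    rw [Nat.cast_sub h1, Nat.cast_sub h2, Nat.cast_sub h3, Nat.cast_sub h4]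
    push_cast
    module

theorem Pt.sem_mul {m : ℕ} {q p : Pt} (hm : Pt.isMul m q p = true) :
    p.sem h = m • q.sem h := by
  simp only [Pt.isMul, Bool.and_eq_true, Nat.beq_eq] at hm
  obtain ⟨⟨⟨h1, h2⟩, h3⟩, h4⟩ := hm
  have key : ∀ a b : ℕ, a + m = m * b + 1 → (a : ℤ) = m * b + 1 - m := fun a b hab => by
    have : ((a + m : ℕ) : ℤ) = ((m * b + 1 : ℕ) : ℤ) := by rw [hab]
    push_cast at this
    linarith
  unfold Pt.sem
  rw [key _ _ h1, key _ _ h2, key _ _ h3, key _ _ h4, ← natCast_zsmul]
  module

variable {E : L → L → ℕ} (hE : Ax E) {ini : Pt → Pt → Option ℕ}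
  (hini : ∀ x y n, ini x y = some n → E (x.sem h) (y.sem h) ≤ n)

/-- the meaning of a fact -/
def Fact.Holds (E : L → L → ℕ) (f : Fact) : Prop :=
  E (f.x.sem h) (f.y.sem h) ≤ f.n

include hE hini in
theorem Step.eval_sound {t : FT} (ht : t.All (Fact.Holds h E)) (s : Step) {f : Fact}
    (hs : s.eval ini t = some f) : f.Holds h E := by
  cases s with
  | ini x y =>
    simp only [Step.eval, Option.map_eq_some_iff] at hs
    obtain ⟨n, h1, rfl⟩ := hs
    exact hini _ _ _ h1
  | dia x y w m n =>
    simp only [Step.eval] at hs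
    cases hc : (w.isMul m x && w.isMul n y && Nat.ble 1 m && Nat.ble 1 n) with
    | false => rw [hc, cond_false] at hs; cases hs
    | true =>
      rw [hc, cond_true] at hs
      cases hs
      simp only [Bool.and_eq_true, Nat.ble_eq] at hc
      obtain ⟨⟨⟨h1, h2⟩, h3⟩, h4⟩ := hc
      unfold Fact.Holds
      change E (x.sem h) (y.sem h) ≤ 0
      rw [Pt.sem_mul h h1, Pt.sem_mul h h2]
      refine (hE.smulL _ _ m h3).trans ?_
      have h5 := hE.smulR (w.sem h) (w.sem h) n h4
      rw [hE.diag, mul_zero] at h5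
      rw [Nat.le_zero.mp h5, mul_zero]
  | sl i j =>
    simp only [Step.eval, Option.bind_eq_some_iff] at hs
    obtain ⟨f₁, h1, f₂, h2, h3⟩ := hs
    cases hc : f₁.y.beq f₂.y with
    | false => rw [hc, cond_false] at h3; cases h3
    | true =>
      rw [hc, cond_true, Option.map_eq_some_iff] at h3
      obtain ⟨z, h4, rfl⟩ := h3
      have e1 := ht.get h1
      have e2 := ht.get h2
      have e3 := Pt.eq_of_beq hc
      unfold Fact.Holds at e1 e2 ⊢
      change E (z.sem h) (f₁.y.sem h) ≤ f₁.n + f₂.n
      rw [Pt.sem_add h h4]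
      rw [← e3] at e2
      exact (hE.subL _ _ _).trans (add_le_add e1 e2)
  | sr i j =>
    simp only [Step.eval, Option.bind_eq_some_iff] at hs
    obtain ⟨f₁, h1, f₂, h2, h3⟩ := hs
    cases hc : f₁.x.beq f₂.x with
    | false => rw [hc, cond_false] at h3; cases h3
    | true =>
      rw [hc, cond_true, Option.map_eq_some_iff] at h3
      obtain ⟨z, h4, rfl⟩ := h3
      have e1 := ht.get h1
      have e2 := ht.get h2
      have e3 := Pt.eq_of_beq hc
      unfold Fact.Holds at e1 e2 ⊢
      change E (f₁.x.sem h) (z.sem h) ≤ f₁.n + f₂.n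
      rw [Pt.sem_add h h4]
      rw [← e3] at e2
      exact (hE.subR _ _ _).trans (add_le_add e1 e2)
  | dl i =>
    simp only [Step.eval, Option.bind_eq_some_iff, Option.map_eq_some_iff] at hs
    obtain ⟨f₁, h1, z, h4, rfl⟩ := hs
    have e1 := ht.get h1
    unfold Fact.Holds at e1 ⊢
    change E (z.sem h) (f₁.y.sem h) ≤ f₁.n - 1
    rw [Pt.sem_add h h4]
    exact (hE.desL _ _).trans (Nat.sub_le_sub_right e1 1)
  | dr i =>
    simp only [Step.eval, Option.bind_eq_some_iff, Option.map_eq_some_iff] at hs
    obtain ⟨f₁, h1, z, h4, rfl⟩ := hs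
    have e1 := ht.get h1
    unfold Fact.Holds at e1 ⊢
    change E (f₁.x.sem h) (z.sem h) ≤ f₁.n - 1
    rw [Pt.sem_add h h4]
    exact (hE.desR _ _).trans (Nat.sub_le_sub_right e1 1)
  | hl i m x =>
    simp only [Step.eval, Option.bind_eq_some_iff] at hs
    obtain ⟨f₁, h1, h3⟩ := hs
    cases hc : (Pt.isMul m x f₁.x && Nat.ble 1 m) with
    | false => rw [hc, cond_false] at h3; cases h3
    | true =>
      rw [hc, cond_true] at h3
      cases h3
      simp only [Bool.and_eq_true, Nat.ble_eq] at hc
      have e1 := ht.get h1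
      unfold Fact.Holds at e1 ⊢
      change E (x.sem h) (f₁.y.sem h) ≤ f₁.n / m
      rw [Pt.sem_mul h hc.1] at e1
      rw [Nat.le_div_iff_mul_le hc.2, mul_comm]
      exact (hE.homL _ _ _).trans e1
  | hr i m x =>
    simp only [Step.eval, Option.bind_eq_some_iff] at hs
    obtain ⟨f₁, h1, h3⟩ := hs
    cases hc : (Pt.isMul m x f₁.y && Nat.ble 1 m) with
    | false => rw [hc, cond_false] at h3; cases h3
    | true =>
      rw [hc, cond_true] at h3
      cases h3
      simp only [Bool.and_eq_true, Nat.ble_eq] at hc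
      have e1 := ht.get h1
      unfold Fact.Holds at e1 ⊢
      change E (f₁.x.sem h) (x.sem h) ≤ f₁.n / m
      rw [Pt.sem_mul h hc.1] at e1
      rw [Nat.le_div_iff_mul_le hc.2, mul_comm]
      exact (hE.homR _ _ _).trans e1

include hE hini in
theorem run_sound : ∀ (l : List Step) (t : FT) (n : ℕ) (t' : FT),
    t.All (Fact.Holds h E) → run ini l t n = some t' → t'.All (Fact.Holds h E)
  | [], t, n, t', ht, hr => by
    rw [run] at hr
    cases hr
    exact ht
  | s :: l, t, n, t', ht, hr => by
    rw [run, Option.bind_eq_some_iff] at hr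
    obtain ⟨f, h1, h2⟩ := hr
    exact run_sound l _ _ t' (ht.put n (Step.eval_sound h hE hini ht s h1)) h2

theorem zeroFact_sound {t : FT} (ht : t.All (Fact.Holds h E)) {i : ℕ} {x y : Pt}
    (hz : zeroFact t i x y = true) : E (x.sem h) (y.sem h) = 0 := by
  unfold zeroFact at hz
  cases hg : t.get i with
  | none => rw [hg] at hz; cases hz
  | some f =>
    rw [hg] at hz
    simp only [Bool.and_eq_true, Nat.beq_eq] at hz
    obtain ⟨⟨h1, h2⟩, h3⟩ := hz
    have e := ht.get hg
    unfold Fact.Holds at e
    rw [h3, Pt.eq_of_beq h1, Pt.eq_of_beq h2] at e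
    exact Nat.le_zero.mp e

theorem rowCheck_sound {t : FT} (ht : t.All (Fact.Holds h E)) (a s : ℕ) (x : Pt) :
    ∀ (j : ℕ) (ys : List Pt) (k k' : List ℕ), rowCheck t a s x j ys k = some k' →
      ∀ (b : ℕ) (hb : b < ys.length), a ≠ j + b → s ≠ j + b →
        E (x.sem h) (ys[b].sem h) = 0
  | j, [], k, k', _, b, hb, _, _ => absurd hb (by simp)
  | j, y :: ys, k, k', hr, b, hb, ha, hs => by
    unfold rowCheck at hr
    cases hc : (Nat.beq a j || Nat.beq s j) with
    | true =>
      rw [hc, cond_true] at hr
      cases b with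
      | zero =>
        simp only [Bool.or_eq_true, Nat.beq_eq] at hc
        rcases hc with hc | hc
        · exact absurd hc (by simpa using ha)
        · exact absurd hc (by simpa using hs)
      | succ b =>
        have := rowCheck_sound ht a s x (j + 1) ys k k' hr b (by simpa using hb)
          (by omega) (by omega)
        simpa using this
    | false =>
      rw [hc, cond_false] at hr
      cases k with
      | nil => cases hr
      | cons i k =>
        simp only at hr
        cases hz : zeroFact t i x y with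
        | false => rw [hz, cond_false] at hr; cases hr
        | true =>
          rw [hz, cond_true] at hr
          cases b with
          | zero => simpa using zeroFact_sound h ht hz
          | succ b =>
            have := rowCheck_sound ht a s x (j + 1) ys k k' hr b (by simpa using hb)
              (by omega) (by omega)
            simpa using this

theorem leafCheck_sound {t : FT} (ht : t.All (Fact.Holds h E)) (all : List Pt) :
    ∀ (a : ℕ) (xs : List Pt) (σ k : List ℕ), leafCheck t all a xs σ k = true →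
      ∀ (i : ℕ) (hi : i < xs.length) (b : ℕ) (hb : b < all.length), a + i ≠ b →
        σ.getD i 0 ≠ b → E (xs[i].sem h) (all[b].sem h) = 0
  | a, [], σ, k, _, i, hi, _, _, _, _ => absurd hi (by simp)
  | a, x :: xs, [], k, hl, i, hi, _, _, _, _ => by simp [leafCheck] at hl
  | a, x :: xs, s :: σ, k, hl, i, hi, b, hb, h1, h2 => by
    unfold leafCheck at hl
    cases hr : rowCheck t a s x 0 all k with
    | none => rw [hr] at hl; cases hl
    | some k' =>
      rw [hr] at hl
      simp only at hl
      cases i with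
      | zero =>
        have := rowCheck_sound h ht a s x 0 all k k' hr b hb (by simpa using h1)
          (by simpa using h2)
        simpa using this
      | succ i =>
        have := leafCheck_sound ht all (a + 1) xs σ k' hl i (by simpa using hi) b hb
          (by omega) (by simpa using h2)
        simpa using this

theorem invol_sound (n : ℕ) (σ : List ℕ) : ∀ m, invol n σ m = true → ∀ a < m,
    σ.getD a 0 < n ∧ σ.getD (σ.getD a 0) 0 = a
  | 0, _, a, ha => absurd ha (by omega)
  | m + 1, hm, a, ha => by
    unfold invol at hm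
    simp only [Bool.and_eq_true, Nat.beq_eq, Nat.blt_eq] at hm
    rcases Nat.lt_succ_iff_lt_or_eq.mp ha with ha | rfl
    · exact invol_sound n σ m hm.2 a ha
    · exact ⟨hm.1.1, hm.1.2⟩

theorem Tree.check_sound {t : FT} (ht : t.All (Fact.Holds h E)) {n : ℕ} :
    ∀ (tr : Tree) (v : List Pt) (hv : v.length = n), tr.check t n v = true →
      Good E (fun i : Fin n => (v.getD i zero).sem h)
  | .leaf σ k, v, hv, hc => by
    unfold Tree.check at hc
    simp only [Bool.and_eq_true] at hc
    have hi := invol_sound n σ n hc.1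
    refine Good.leaf _ (fun i => ⟨σ.getD i 0, (hi i i.2).1⟩) (fun i => ?_) fun i j hij hs => ?_
    · exact Fin.ext (hi i i.2).2
    · have := leafCheck_sound h ht v 0 v σ k hc.2 i (by omega) j (by omega)
        (by rw [Nat.zero_add]; exact fun e => hij (Fin.ext e))
        (fun e => hs (Fin.ext e))
      simpa [List.getD_eq_getElem?_getD, hv] using this
  | .split i j t₁ t₂, v, hv, hc => by
    unfold Tree.check at hc
    simp only [Bool.and_eq_true, Nat.blt_eq, Bool.not_eq_true'] at hc
    obtain ⟨⟨⟨hi, hj⟩, hij'⟩, hc⟩ := hc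
    cases hs : Pt.add (v.getD i zero) (v.getD j zero) with
    | none => rw [hs] at hc; cases hc
    | some s =>
    rw [hs] at hc
    simp only [Bool.and_eq_true] at hc
    obtain ⟨h1, h2⟩ := hc
    have hij : i ≠ j := Nat.ne_of_beq_eq_false hij'
    have e1 := Tree.check_sound ht t₁ _ (by rw [List.length_set, hv]) h1
    have e2 := Tree.check_sound ht t₂ _ (by rw [List.length_set, hv]) h2
    refine Good.split _ ⟨i, hi⟩ ⟨j, hj⟩ (fun e => hij (by simpa using e)) ?_ ?_
    · convert e1 using 1
      funext l
      by_cases hl : l = ⟨i, hi⟩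
      · subst hl
        rw [Function.update_self]
        simp only [List.getD_eq_getElem?_getD]
        rw [List.getElem?_set_self (by omega)]
        simp only [Option.getD_some]
        rw [Pt.sem_add h hs]
        simp only [List.getD_eq_getElem?_getD]
      · rw [Function.update_of_ne hl]
        simp only [List.getD_eq_getElem?_getD]
        rw [List.getElem?_set_ne (fun e => hl (Fin.ext e.symm))]
    · convert e2 using 1
      funext l
      by_cases hl : l = ⟨j, hj⟩
      · subst hl
        rw [Function.update_self]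
        simp only [List.getD_eq_getElem?_getD]
        rw [List.getElem?_set_self (by omega)]
        simp only [Option.getD_some]
        rw [Pt.sem_add h hs]
        simp only [List.getD_eq_getElem?_getD]
      · rw [Function.update_of_ne hl]
        simp only [List.getD_eq_getElem?_getD]
        rw [List.getElem?_set_ne (fun e => hl (Fin.ext e.symm))]

include hE hini in
/-- soundness of the certificate check -/
theorem checkAll_sound (l : List Step) (tr : Tree) (hc : checkAll ini l tr = true) :
    Good E (fun i : Fin 4 => h i) := by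
  unfold checkAll at hc
  cases hr : run ini l .nil 0 with
  | none => rw [hr] at hc; cases hc
  | some t =>
    rw [hr] at hc
    have e := Tree.check_sound h (run_sound h hE hini l .nil 0 t
      (show FT.All _ FT.nil from trivial) hr) tr _ (by rfl) hc
    convert e using 1
    funext i
    fin_cases i <;> simp [Pt.sem]

end sound

end Pool.Agent.Helper947_Four
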