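import Pool.Agent.Helper947_Any.Final
import Pool.Agent.Helper947_Four.Bil

set_option autoImplicit false

/-!
Algebras with four simple modules and small endomorphism algebras of the indecomposable
projectives.
-/

namespace Pool.Agent.Helper947_Four

open Pool.Agent.Helper391_TT
open Pool.Agent.Helper947_Fin (Ax EE FinS bv cone2 ax EE_pos EE_neg EE_le finS_cone2
  tauTiltingFinite_of_finS)
open Pool.Agent.Helper947_Any (Good gen face face_sub finS_of_good finS_iUnion EE_le_wt wt)

universe u

/-- there is a certificate for the orthant with `r` positive generators, the special index being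
`t` -/
def HasCert (r t : ℕ) : Prop :=
  ∃ (l : List Step) (tr : Tree), checkAll (fun x y => some (bil r t x y)) l tr = true

section abstract

variable {L : Type*} [AddCommGroup L] {E : L → L → ℕ}

theorem good_of_cert (hE : Ax E) (g : Fin 4 → L) (r t : ℕ) (hP : ∀ a y, E (g a) y = 0)
    (hN : ∀ x a, E x (-g a) = 0) (hD : ∀ a b, E (-g a) (g b) ≤ dt t a b) (hc : HasCert r t) :
    Good E (fun a : Fin 4 => if (a : ℕ) < r then g a else -g a) := by
  obtain ⟨l, tr, hc⟩ := hc
  have hz : ∀ y, E 0 y = 0 := fun y => by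
    have := hE.homL 2 0 y
    rw [smul_zero] at this
    omega
  have hz' : ∀ y, E y 0 = 0 := fun y => by
    have := hE.homR 2 y 0
    rw [smul_zero] at this
    omega
  let g' : ℕ → L := fun a => if ha : a < 4 then g ⟨a, ha⟩ else 0
  have hlt : ∀ a (ha : a < 4), g' a = g ⟨a, ha⟩ := fun a ha => by
    simp only [g']; rw [dif_pos ha]
  have hge : ∀ a, ¬ a < 4 → g' a = 0 := fun a ha => by
    simp only [g']; rw [dif_neg ha]
  have e := good_of_check hE g' r t (fun a y => by
      by_cases ha : a < 4
      · rw [hlt a ha, hP]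
      · rw [hge a ha, hz]) (fun x a => by
      by_cases ha : a < 4
      · rw [hlt a ha, hN]
      · rw [hge a ha, neg_zero, hz']) (fun a b ha hb => by
      rw [hlt a ha, hlt b hb]
      exact hD _ _) l tr hc
  convert e using 1
  funext a
  unfold hgen
  rw [hlt a a.2]

end abstract

variable {k A : Type u} [Field k] [Ring A] [Algebra k A] {ι : Type} [Fintype ι] [DecidableEq ι]
  (B : ProjBasis k A ι) (F : (ι → ℤ) → Obj k A) (hF : ∀ x, Rigid (F x) ∧ B.Cls (F x) x)
  (f : Fin 4 → ι) (hf : ∀ i, ∃ a, f a = i)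

include hF hf in
theorem finS_face_same [Module.Finite k A] (I : Finset ι)
    (h : (∀ a, f a ∈ I) ∨ (∀ a, f a ∉ I)) : FinS B (face I Finset.univ) := by
  rcases h with h | h
  · refine (finS_of_good B F hF (v := fun a => bv (f a)) (Good.leaf _ id (fun _ => rfl)
      fun _ _ _ _ => EE_pos B F hF _ _)).mono B (face_sub I _ _ fun i _ => ?_)
    obtain ⟨a, rfl⟩ := hf i
    exact ⟨a, by rw [gen, if_pos (h a)]⟩
  · refine (finS_of_good B F hF (v := fun a => -bv (f a)) (Good.leaf _ id (fun _ => rfl)
      fun _ _ _ _ => EE_neg B F hF _ _)).mono B (face_sub I _ _ fun i _ => ?_)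
    obtain ⟨a, rfl⟩ := hf i
    exact ⟨a, by rw [gen, if_neg (h a)]⟩

theorem dt_perm (π : Fin 4 → Fin 4) (tt : ℕ) (h : ∀ a : Fin 4, π a = 0 ↔ (a : ℕ) = tt)
    (a b : Fin 4) : (if π a = 0 ∨ π b = 0 then 2 else 1) = dt tt a b := by
  unfold dt
  by_cases ha : π a = 0
  · have : Nat.beq a tt = true := Nat.beq_eq.mpr ((h a).mp ha)
    rw [if_pos (Or.inl ha), this, Bool.true_or, cond_true]
  · have h1 : Nat.beq a tt = false := by
      rw [← Bool.not_eq_true, Nat.beq_eq]
      exact fun e => ha ((h a).mpr e)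
    by_cases hb : π b = 0
    · have : Nat.beq b tt = true := Nat.beq_eq.mpr ((h b).mp hb)
      rw [if_pos (Or.inr hb), this, Bool.or_true, cond_true]
    · have h2 : Nat.beq b tt = false := by
        rw [← Bool.not_eq_true, Nat.beq_eq]
        exact fun e => hb ((h b).mpr e)
      rw [if_neg (by tauto), h1, h2, Bool.or_self, cond_false]

variable (hD : ∀ a b : Fin 4, EE F (-bv (f a)) (bv (f b)) ≤ if a = 0 ∨ b = 0 then 2 else 1)

include hF hf hD in
theorem finS_face_pos [Module.Finite k A] (I : Finset ι) (r tt : ℕ) (π : Fin 4 → Fin 4)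
    (hc : HasCert r tt) (hs : ∀ b, ∃ a, π a = b) (ht : ∀ a : Fin 4, π a = 0 ↔ (a : ℕ) = tt)
    (hI : ∀ a : Fin 4, (a : ℕ) < r ↔ f (π a) ∈ I) : FinS B (face I Finset.univ) := by
  have g := good_of_cert (ax B F hF) (fun a => bv (f (π a))) r tt
    (fun a y => EE_pos B F hF _ _) (fun x a => EE_neg B F hF _ _)
    (fun a b => (hD (π a) (π b)).trans (le_of_eq (dt_perm π tt ht a b))) hc
  refine (finS_of_good B F hF g).mono B (face_sub I _ _ fun i _ => ?_)
  obtain ⟨b, rfl⟩ := hf i
  obtain ⟨a, rfl⟩ := hs b
  refine ⟨a, ?_⟩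
  unfold gen
  by_cases h : (a : ℕ) < r
  · rw [if_pos h, if_pos ((hI a).mp h)]
  · rw [if_neg h, if_neg fun h' => h ((hI a).mpr h')]

include hF hf hD in
theorem finS_face_neg [Module.Finite k A] (I : Finset ι) (r tt : ℕ) (π : Fin 4 → Fin 4)
    (hc : HasCert r tt) (hs : ∀ b, ∃ a, π a = b) (ht : ∀ a : Fin 4, π a = 0 ↔ (a : ℕ) = tt)
    (hI : ∀ a : Fin 4, (a : ℕ) < r ↔ f (π a) ∉ I) : FinS B (face I Finset.univ) := by
  have g := good_of_cert (ax B F hF).dual (fun a => bv (f (π a))) r tt
    (fun a y => EE_neg B F hF _ _) (fun x a => by rw [neg_neg]; exact EE_pos B F hF _ _)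
    (fun a b => by
      rw [neg_neg]
      refine (hD (π b) (π a)).trans (le_of_eq ?_)
      rw [← dt_perm π tt ht a b]
      simp only [or_comm]) hc
  refine (finS_of_good B F hF g.dual).mono B (face_sub I _ _ fun i _ => ?_)
  obtain ⟨b, rfl⟩ := hf i
  obtain ⟨a, rfl⟩ := hs b
  refine ⟨a, ?_⟩
  unfold gen
  by_cases h : (a : ℕ) < r
  · rw [if_pos h, if_neg ((hI a).mp h)]
  · rw [if_neg h, if_pos (not_not.mp fun h' => h ((hI a).mpr h')), neg_neg]

include hF hf hD in
theorem finS_face_all [Module.Finite k A] (hA : HasCert 1 0) (hB : HasCert 1 1)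
    (hC : HasCert 2 0) (I : Finset ι) : FinS B (face I Finset.univ) := by
  by_cases h0 : f 0 ∈ I
  · by_cases h1 : f 1 ∈ I
    · by_cases h2 : f 2 ∈ I
      · by_cases h3 : f 3 ∈ I
        · exact finS_face_same B F hF f hf I (Or.inl (by intro a; fin_cases a <;> assumption))
        · exact finS_face_neg B F hF f hf hD I 1 1 ![3, 0, 1, 2] hB (by decide) (by decide)
            (by intro a; fin_cases a <;> simp [h0, h1, h2, h3])
      · by_cases h3 : f 3 ∈ I
        · exact finS_face_neg B F hF f hf hD I 1 1 ![2, 0, 1, 3] hB (by decide) (by decide)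
            (by intro a; fin_cases a <;> simp [h0, h1, h2, h3])
        · exact finS_face_pos B F hF f hf hD I 2 0 ![0, 1, 2, 3] hC (by decide) (by decide)
            (by intro a; fin_cases a <;> simp [h0, h1, h2, h3])
    · by_cases h2 : f 2 ∈ I
      · by_cases h3 : f 3 ∈ I
        · exact finS_face_neg B F hF f hf hD I 1 1 ![1, 0, 2, 3] hB (by decide) (by decide)
            (by intro a; fin_cases a <;> simp [h0, h1, h2, h3])
        · exact finS_face_pos B F hF f hf hD I 2 0 ![0, 2, 1, 3] hC (by decide) (by decide)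
            (by intro a; fin_cases a <;> simp [h0, h1, h2, h3])
      · by_cases h3 : f 3 ∈ I
        · exact finS_face_pos B F hF f hf hD I 2 0 ![0, 3, 1, 2] hC (by decide) (by decide)
            (by intro a; fin_cases a <;> simp [h0, h1, h2, h3])
        · exact finS_face_pos B F hF f hf hD I 1 0 ![0, 1, 2, 3] hA (by decide) (by decide)
            (by intro a; fin_cases a <;> simp [h0, h1, h2, h3])
  · by_cases h1 : f 1 ∈ I
    · by_cases h2 : f 2 ∈ I
      · by_cases h3 : f 3 ∈ I
        · exact finS_face_neg B F hF f hf hD I 1 0 ![0, 1, 2, 3] hA (by decide) (by decide)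
            (by intro a; fin_cases a <;> simp [h0, h1, h2, h3])
        · exact finS_face_neg B F hF f hf hD I 2 0 ![0, 3, 1, 2] hC (by decide) (by decide)
            (by intro a; fin_cases a <;> simp [h0, h1, h2, h3])
      · by_cases h3 : f 3 ∈ I
        · exact finS_face_neg B F hF f hf hD I 2 0 ![0, 2, 1, 3] hC (by decide) (by decide)
            (by intro a; fin_cases a <;> simp [h0, h1, h2, h3])
        · exact finS_face_pos B F hF f hf hD I 1 1 ![1, 0, 2, 3] hB (by decide) (by decide)
            (by intro a; fin_cases a <;> simp [h0, h1, h2, h3])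
    · by_cases h2 : f 2 ∈ I
      · by_cases h3 : f 3 ∈ I
        · exact finS_face_neg B F hF f hf hD I 2 0 ![0, 1, 2, 3] hC (by decide) (by decide)
            (by intro a; fin_cases a <;> simp [h0, h1, h2, h3])
        · exact finS_face_pos B F hF f hf hD I 1 1 ![2, 0, 1, 3] hB (by decide) (by decide)
            (by intro a; fin_cases a <;> simp [h0, h1, h2, h3])
      · by_cases h3 : f 3 ∈ I
        · exact finS_face_pos B F hF f hf hD I 1 1 ![3, 0, 1, 2] hB (by decide) (by decide)
            (by intro a; fin_cases a <;> simp [h0, h1, h2, h3])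
        · exact finS_face_same B F hF f hf I (Or.inr (by intro a; fin_cases a <;> assumption))

include hF in
theorem finite_of_four [Module.Finite k A] (hA : HasCert 1 0) (hB : HasCert 1 1)
    (hC : HasCert 2 0) (hι : Fintype.card ι = 4) (t : ι) (ht : dd (B.P t) (B.P t) ≤ 2)
    (h1 : ∀ i, i ≠ t → dd (B.P i) (B.P i) ≤ 1) : TauTiltingFinite k A := by
  apply tauTiltingFinite_of_finS B
  let e : ι ≃ Fin 4 := (Fintype.equivFinOfCardEq hι).trans
    (Equiv.swap ((Fintype.equivFinOfCardEq hι) t) 0)
  have he : e t = 0 := by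
    simp only [e, Equiv.trans_apply]
    exact Equiv.swap_apply_left _ _
  have h0 : ∀ a, e.symm a = t → a = 0 := fun a ha => by
    rw [← he, ← ha, Equiv.apply_symm_apply]
  have hm : ∀ a, dd (B.P (e.symm a)) (B.P (e.symm a)) ≤ if a = 0 then 2 else 1 := by
    intro a
    by_cases ha : a = 0
    · subst ha
      rw [if_pos rfl, ← he, Equiv.symm_apply_apply]
      exact ht
    · rw [if_neg ha]
      exact h1 _ fun h => ha (h0 a h)
  have hD : ∀ a b : Fin 4, EE F (-bv (e.symm a)) (bv (e.symm b)) ≤
      if a = 0 ∨ b = 0 then 2 else 1 := by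
    intro a b
    refine (EE_le_wt B F hF _ _).trans ?_
    by_cases hab : a = b
    · subst hab
      refine (min_le_left _ _).trans ((hm a).trans ?_)
      split_ifs <;> simp_all
    · refine (min_le_right _ _).trans ?_
      have ha := hm a
      have hb := hm b
      by_cases ha0 : a = 0
      · have hb0 : b ≠ 0 := fun h => hab (ha0.trans h.symm)
        rw [if_pos ha0] at ha
        rw [if_neg hb0] at hb
        rw [if_pos (Or.inl ha0)]
        omega
      · rw [if_neg ha0] at ha
        by_cases hb0 : b = 0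
        · rw [if_pos hb0] at hb
          rw [if_pos (Or.inr hb0)]
          omega
        · rw [if_neg hb0] at hb
          rw [if_neg (by tauto)]
          omega
  have key := finS_face_all B F hF (fun a => e.symm a) (fun i => ⟨e i, e.symm_apply_apply i⟩) hD
    hA hB hC
  refine (finS_iUnion B (fun I : Finset ι => face I Finset.univ) key).mono B ?_
  intro x _
  refine ⟨Finset.univ.filter fun i => 0 ≤ x i, fun i _ => ⟨fun hi => ?_, fun hi => ?_⟩,
    fun i hi => absurd (Finset.mem_univ i) hi⟩
  · exact (Finset.mem_filter.mp hi).2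
  · by_contra hlt
    exact hi (Finset.mem_filter.mpr ⟨Finset.mem_univ i, (not_le.mp hlt).le⟩)

end Pool.Agent.Helper947_Four
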